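import Mathlib

set_option autoImplicit false

namespace Pool.Agent.Results.MP_590c78_gt.PerfectPreimage

open Filter Topology Set

universe u v

/-- `C_p(X)`: the continuous real functions on `X` with the topology of pointwise convergence. -/
abbrev Cp (X : Type u) [TopologicalSpace X] : Type u := {f : X → ℝ // Continuous f}

/-- `A` is countably compact in `Z`: each infinite subset of `A` has an accumulation point in `Z`. -/
def CountablyCompactIn {Z : Type u} [TopologicalSpace Z] (A : Set Z) : Prop :=
  ∀ B : Set Z, B ⊆ A → B.Infinite → ∃ z : Z, AccPt z (𝓟 B)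

/-- g-space. -/
def GSpace (Z : Type u) [TopologicalSpace Z] : Prop :=
  ∀ A : Set Z, CountablyCompactIn A → IsCompact (closure A)

/-- weakly Grothendieck: `C_p(X)` is a g-space. -/
def WeaklyGrothendieck (X : Type u) [TopologicalSpace X] : Prop := GSpace (Cp X)

/-- Grothendieck: every subspace of `C_p(X)` is a g-space. -/
def Grothendieck (X : Type u) [TopologicalSpace X] : Prop := ∀ S : Set (Cp X), GSpace S

section general

variable {Z : Type u} [TopologicalSpace Z]

theorem exists_mapClusterPt [T1Space Z] {A : Set Z} (hA : CountablyCompactIn A) (w : ℕ → Z)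
    (hw : ∀ n, w n ∈ A) : ∃ z, MapClusterPt z atTop w := by
  by_cases hfin : (Set.range w).Finite
  · have : ∃ z ∈ Set.range w, ∃ᶠ n in atTop, w n = z := by
      by_contra hcon
      push Not at hcon
      have h1 : ∀ᶠ n in atTop, ∀ z ∈ Set.range w, w n ≠ z :=
        (hfin.eventually_all).2 fun z hz => by simpa using hcon z hz
      obtain ⟨n, hn⟩ := h1.exists
      exact hn (w n) ⟨n, rfl⟩ rfl
    obtain ⟨z, -, hz⟩ := this
    refine ⟨z, mapClusterPt_iff_frequently.2 fun s hs => hz.mono fun n hn => ?_⟩
    rw [hn]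
    exact mem_of_mem_nhds hs
  · obtain ⟨z, hz⟩ := hA (Set.range w) (by rintro _ ⟨n, rfl⟩; exact hw n) hfin
    refine ⟨z, mapClusterPt_iff_frequently.2 fun s hs => ?_⟩
    rw [frequently_atTop]
    intro N
    rw [accPt_iff_frequently] at hz
    have hF : (((fun n => w n) '' (Set.Iio N)) \ {z}).Finite :=
      ((Set.finite_Iio N).image _).sdiff
    have h2 : (((fun n => w n) '' (Set.Iio N)) \ {z})ᶜ ∈ 𝓝 z :=
      hF.isClosed.isOpen_compl.mem_nhds (by simp)
    obtain ⟨y, ⟨hyz, n, rfl⟩, hys, hyF⟩ := (hz.and_eventually (inter_mem hs h2)).exists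
    refine ⟨n, ?_, hys⟩
    by_contra hlt
    push Not at hlt
    exact hyF ⟨⟨n, hlt, rfl⟩, hyz⟩

theorem countablyCompactIn_of_seq {A : Set Z}
    (h : ∀ w : ℕ → Z, (∀ n, w n ∈ A) → ∃ z, MapClusterPt z atTop w) :
    CountablyCompactIn A := by
  intro B hB hinf
  obtain ⟨w, hw⟩ : ∃ w : ℕ ↪ Z, ∀ n, w n ∈ B :=
    ⟨(hinf.natEmbedding B).trans (Function.Embedding.subtype _), fun n => (hinf.natEmbedding B n).2⟩
  obtain ⟨z, hz⟩ := h w (fun n => hB (hw n))
  refine ⟨z, accPt_iff_frequently.2 ?_⟩
  rw [mapClusterPt_iff_frequently] at hz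
  rw [frequently_iff]
  intro s hs
  have h1 := hz s hs
  have h2 : ∃ n, w n ∈ s ∧ w n ≠ z := by
    by_contra hcon
    push Not at hcon
    rw [frequently_atTop] at h1
    obtain ⟨a, -, ha⟩ := h1 0
    obtain ⟨b, hb, hb'⟩ := h1 (a + 1)
    have : w a = w b := (hcon a ha).trans (hcon b hb').symm
    have := w.injective this
    omega
  obtain ⟨n, hn, hn'⟩ := h2
  exact ⟨w n, hn, hn', hw n⟩

variable {X : Type v} {e : Z → X → ℝ}

theorem cluster_eval {ι : Type*} {l : Filter ι} (he : Continuous e) {w : ι → Z} {z : Z}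
    (h : MapClusterPt z l w) {x : X} {c : ℝ}
    (hc : Tendsto (fun i => e (w i) x) l (𝓝 c)) : e z x = c := by
  have h1 : MapClusterPt (e z x) l (fun i => e (w i) x) :=
    h.continuousAt_comp (f := fun f : Z => e f x)
      ((continuous_apply x).comp he).continuousAt
  have h2 : (𝓝 (e z x) ⊓ map (fun i => e (w i) x) l).NeBot := h1
  have h3 : (𝓝 (e z x) ⊓ 𝓝 c).NeBot := h2.mono (inf_le_inf_left _ hc)
  exact eq_of_nhds_neBot h3

variable {A : Set Z}

theorem bounded (he : Continuous e)
    (hA : ∀ w : ℕ → Z, (∀ n, w n ∈ A) → ∃ z, MapClusterPt z atTop w) (x : X) :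
    ∃ M : ℝ, ∀ f ∈ A, |e f x| ≤ M := by
  by_contra hcon
  push Not at hcon
  choose w hw hwx using fun n : ℕ => hcon n
  obtain ⟨z, hzc⟩ := hA w hw
  have h1 : MapClusterPt (e z x) atTop (fun i => e (w i) x) :=
    hzc.continuousAt_comp (f := fun f : Z => e f x)
      ((continuous_apply x).comp he).continuousAt
  have h2 : ∀ᶠ y in 𝓝 (e z x), |y| < |e z x| + 1 :=
    (continuous_abs.tendsto (e z x)).eventually (gt_mem_nhds (by linarith))
  have h3 := h1.frequently h2
  obtain ⟨N, hN⟩ := exists_nat_gt (|e z x| + 1)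
  have h4 : ∀ᶠ n : ℕ in atTop, ¬ |e (w n) x| < |e z x| + 1 := by
    filter_upwards [eventually_ge_atTop N] with n hn
    have : (N : ℝ) ≤ n := by exact_mod_cast hn
    have := hwx n
    linarith
  exact h3 h4

/-- a point of the pointwise closure of a relatively countably compact set agrees on every
countable set with an element of the space -/
theorem countable_approx (he : Continuous e)
    (hA : ∀ w : ℕ → Z, (∀ n, w n ∈ A) → ∃ z, MapClusterPt z atTop w)
    {g : X → ℝ} (hg : g ∈ closure (e '' A)) {T : Set X} (hT : T.Countable) :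
    ∃ z ∈ closure A, ∀ x ∈ T, e z x = g x := by
  by_cases hne : T.Nonempty
  · obtain ⟨t, ht⟩ := hT.exists_eq_range hne
    have key : ∀ n : ℕ, ∃ f ∈ A, ∀ i ≤ n, |e f (t i) - g (t i)| < 1 / ((n : ℝ) + 1) := by
      intro n
      have hopen : IsOpen {h : X → ℝ | ∀ i ∈ Finset.range (n + 1),
          |h (t i) - g (t i)| < 1 / ((n : ℝ) + 1)} := by
        have : {h : X → ℝ | ∀ i ∈ Finset.range (n + 1),
          |h (t i) - g (t i)| < 1 / ((n : ℝ) + 1)} = ⋂ i ∈ Finset.range (n + 1),
          {h : X → ℝ | |h (t i) - g (t i)| < 1 / ((n : ℝ) + 1)} := by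
          ext h; simp
        rw [this]
        exact isOpen_biInter_finset fun i _ => isOpen_lt (by fun_prop) continuous_const
      obtain ⟨h, hh, f, hf, rfl⟩ := mem_closure_iff.1 hg _ hopen (by
        intro i _; simp; positivity)
      exact ⟨f, hf, fun i hi => hh i (Finset.mem_range.2 (Nat.lt_succ_of_le hi))⟩
    choose w hw hwx using key
    obtain ⟨z, hzc⟩ := hA w hw
    refine ⟨z, ?_, fun x hx => ?_⟩
    · refine mem_closure_iff_clusterPt.2 (ClusterPt.mono (show ClusterPt z (map w atTop) from hzc) ?_)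
      exact tendsto_principal.2 (Eventually.of_forall hw)
    obtain ⟨i, rfl⟩ : x ∈ Set.range t := ht ▸ hx
    refine cluster_eval he hzc ?_
    rw [tendsto_iff_dist_tendsto_zero]
    refine squeeze_zero' (Eventually.of_forall fun n => dist_nonneg) ?_
      (tendsto_one_div_add_atTop_nhds_zero_nat)
    filter_upwards [eventually_ge_atTop i] with n hn
    rw [Real.dist_eq]
    exact (hwx n i hn).le
  · rw [Set.not_nonempty_iff_eq_empty] at hne
    have : A.Nonempty := by
      by_contra hA'
      rw [Set.not_nonempty_iff_eq_empty] at hA'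
      simp [hA'] at hg
    obtain ⟨a, ha⟩ := this
    exact ⟨a, subset_closure ha, by simp [hne]⟩

theorem isCompact_closure_of (he : IsInducing e)
    (hA : ∀ w : ℕ → Z, (∀ n, w n ∈ A) → ∃ z, MapClusterPt z atTop w)
    (hr : closure (e '' A) ⊆ Set.range e) : IsCompact (closure A) := by
  rw [he.closure_eq_preimage_closure_image]
  refine he.isCompact_preimage' ?_ hr
  choose M hM using fun x : X => bounded he.continuous hA x
  have hcomp : IsCompact (Set.univ.pi fun x : X => Set.Icc (-(M x)) (M x)) :=
    isCompact_univ_pi fun x => isCompact_Icc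
  refine hcomp.of_isClosed_subset isClosed_closure ?_
  refine closure_minimal ?_ hcomp.isClosed
  rintro _ ⟨f, hf, rfl⟩ x _
  exact abs_le.1 (hM x f hf)

end general

/-- Separable spaces are Grothendieck. -/
theorem grothendieck_of_separable (Y : Type u) [TopologicalSpace Y]
    [TopologicalSpace.SeparableSpace Y] : Grothendieck Y := by
  intro S A hA
  have hseq := exists_mapClusterPt hA
  let e : S → Y → ℝ := fun f => f.1.1
  have he : IsInducing e := IsInducing.subtypeVal.comp IsInducing.subtypeVal
  refine isCompact_closure_of he hseq ?_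
  intro g hg
  obtain ⟨D, hDc, hDd⟩ := TopologicalSpace.exists_countable_dense Y
  have key : ∀ y : Y, ∃ z : S, (∀ x ∈ D, e z x = g x) ∧ e z y = g y := by
    intro y
    obtain ⟨z, -, hz⟩ := countable_approx he.continuous hseq hg (hDc.insert y)
    exact ⟨z, fun x hx => hz x (Set.mem_insert_of_mem _ hx), hz y (Set.mem_insert _ _)⟩
  rcases isEmpty_or_nonempty Y with hY | ⟨⟨y₀⟩⟩
  · obtain ⟨z, -, -⟩ := countable_approx he.continuous hseq hg (Set.countable_empty)
    exact ⟨z, funext fun y => hY.elim y⟩
  obtain ⟨z₀, hz₀, -⟩ := key y₀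
  refine ⟨z₀, funext fun y => ?_⟩
  obtain ⟨z, hz, hzy⟩ := key y
  have : e z₀ = e z := by
    refine Continuous.ext_on hDd z₀.1.2 z.1.2 ?_
    intro x hx
    exact (hz₀ x hx).trans (hz x hx).symm
  rw [this, hzy]


/-- Grothendieck spaces are weakly Grothendieck. -/
theorem weakly_of_grothendieck {X : Type u} [TopologicalSpace X] (h : Grothendieck X) :
    WeaklyGrothendieck X := by
  intro A hA
  have hseq := exists_mapClusterPt hA
  let H : (Set.univ : Set (Cp X)) ≃ₜ Cp X := Homeomorph.Set.univ (Cp X)
  have hA' : CountablyCompactIn (H ⁻¹' A) := by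
    refine countablyCompactIn_of_seq fun w hw => ?_
    obtain ⟨z, hz⟩ := hseq (fun n => H (w n)) hw
    refine ⟨H.symm z, ?_⟩
    have := hz.continuousAt_comp (f := H.symm) H.symm.continuous.continuousAt
    simpa [Function.comp_def] using this
  have h1 := (h Set.univ (H ⁻¹' A) hA').image H.continuous
  rwa [H.image_closure, Set.image_preimage_eq _ H.surjective] at h1

/-! ### the counterexample -/

open TopologicalSpace Classical

/-- the discrete uncountable index set -/
abbrev D : Type := ℕ → Bool

/-- coordinates: sequences in `D` -/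
abbrev I : Type := ℕ → D

/-- the point of `2 ^ I` attached to `x` -/
noncomputable def ev (x : Option D) : I → Bool := fun s => decide (∃ n, some (s n) = x)

/-- the countable dense subset of `2 ^ I` -/
def Q : Set (I → Bool) := {q | ∃ C : Clopens I, q = fun s => decide (s ∈ C)}

theorem Q_countable : Q.Countable := by
  have : Countable (Clopens I) := Clopens.countable_iff_secondCountable.2 inferInstance
  have h : Q ⊆ Set.range (fun (C : Clopens I) (s : I) => decide (s ∈ C)) := by
    rintro q ⟨C, rfl⟩
    exact ⟨C, rfl⟩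
  exact (Set.countable_range _).mono h

theorem exists_clopen (F G : Set I) (hF : F.Finite) (hG : G.Finite) (hFG : Disjoint F G) :
    ∃ C : Set I, IsClopen C ∧ F ⊆ C ∧ Disjoint C G := by
  have h1 : ∀ x ∈ F, ∃ C : Set I, IsClopen C ∧ x ∈ C ∧ Disjoint C G := by
    intro x hx
    have h2 : ∀ y ∈ G, ∃ C : Set I, IsClopen C ∧ x ∈ C ∧ y ∉ C := by
      intro y hy
      have hne : x ≠ y := fun h => (Set.disjoint_left.1 hFG) hx (h ▸ hy)
      obtain ⟨C, hC, hxC, hyC⟩ := exists_isClopen_of_totally_separated hne
      exact ⟨C, hC, hxC, hyC⟩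
    choose! C hC hxC hyC using h2
    refine ⟨⋂ y ∈ G, C y, hG.isClopen_biInter hC, ?_, ?_⟩
    · simp only [Set.mem_iInter]
      exact hxC
    · rw [Set.disjoint_left]
      intro z hz hzG
      simp only [Set.mem_iInter] at hz
      exact hyC z hzG (hz z hzG)
  choose! C hC hxC hCG using h1
  refine ⟨⋃ x ∈ F, C x, hF.isClopen_biUnion hC, ?_, ?_⟩
  · intro x hx
    simp only [Set.mem_iUnion]
    exact ⟨x, hx, hxC x hx⟩
  · simp only [Set.disjoint_iUnion_left]
    exact hCG

theorem Q_dense : Dense Q := by
  intro f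
  rw [mem_closure_iff_nhds]
  intro V hV
  rw [nhds_pi, Filter.mem_pi] at hV
  obtain ⟨F, hF, t, ht, hsub⟩ := hV
  obtain ⟨C, hC, h1, h2⟩ := exists_clopen {s ∈ F | f s = true} {s ∈ F | f s = false}
    (hF.subset (Set.sep_subset _ _)) (hF.subset (Set.sep_subset _ _)) (by
      rw [Set.disjoint_left]
      rintro s ⟨-, h1⟩ ⟨-, h2⟩
      rw [h1] at h2
      exact Bool.noConfusion h2)
  refine ⟨fun s => decide (s ∈ C), hsub ?_, ⟨⟨C, hC⟩, rfl⟩⟩
  intro s hs
  have : decide (s ∈ C) = f s := by
    by_cases hfs : f s = true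
    · rw [hfs]
      exact decide_eq_true (h1 ⟨hs, hfs⟩)
    · rw [Bool.not_eq_true] at hfs
      rw [hfs]
      refine decide_eq_false ?_
      intro hsC
      exact (Set.disjoint_left.1 h2) hsC ⟨hs, hfs⟩
  show decide (s ∈ C) ∈ t s
  rw [this]
  exact mem_of_mem_nhds (ht s)

/-- the space `Y` -/
abbrev Y : Type := {z : (I → Bool) × ℝ //
  (z.2 = 0 ∧ z.1 ∈ Set.range ev) ∨ ((∃ n : ℕ, z.2 = 1 / ((n : ℝ) + 1)) ∧ z.1 ∈ Q)}

instance : SeparableSpace Y := by
  have hc : (Q ×ˢ Set.range (fun n : ℕ => 1 / ((n : ℝ) + 1))).Countable :=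
    Q_countable.prod (Set.countable_range _)
  refine ⟨⟨Subtype.val ⁻¹' (Q ×ˢ Set.range (fun n : ℕ => 1 / ((n : ℝ) + 1))),
    hc.preimage Subtype.val_injective, ?_⟩⟩
  intro y
  rw [closure_subtype]
  have h1 : (Q ×ˢ Set.range (fun n : ℕ => 1 / ((n : ℝ) + 1))) ⊆
      {z : (I → Bool) × ℝ | (z.2 = 0 ∧ z.1 ∈ Set.range ev) ∨
        ((∃ n : ℕ, z.2 = 1 / ((n : ℝ) + 1)) ∧ z.1 ∈ Q)} := by
    rintro ⟨q, r⟩ ⟨hq, n, rfl⟩
    exact Or.inr ⟨⟨n, rfl⟩, hq⟩
  rw [Set.image_preimage_eq_of_subset (fun z hz => ⟨⟨z, h1 hz⟩, rfl⟩), closure_prod_eq,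
    Q_dense.closure_eq]
  refine ⟨Set.mem_univ _, ?_⟩
  rcases y.2 with h | h
  · rw [h.1]
    exact mem_closure_of_tendsto tendsto_one_div_add_atTop_nhds_zero_nat
      (Eventually.of_forall fun n => ⟨n, rfl⟩)
  · obtain ⟨n, hn⟩ := h.1
    rw [hn]
    exact subset_closure ⟨n, rfl⟩

/-- the closed subspace of `Y` -/
def E : Set Y := {y | y.1.2 = 0}

theorem E_closed : IsClosed E :=
  isClosed_eq (continuous_snd.comp continuous_subtype_val) continuous_const

/-- the space `X`: the topological sum of `E` and `Y`, as a subspace of `Y × {0, 1}` -/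
abbrev X : Type := {p : Y × Bool // p.2 = true ∨ p.1 ∈ E}

/-- the perfect map -/
def F : X → Y := fun p => p.1.1

theorem F_cont : Continuous F := continuous_fst.comp continuous_subtype_val

theorem X_closed : IsClosed {p : Y × Bool | p.2 = true ∨ p.1 ∈ E} :=
  (isClosed_eq continuous_snd continuous_const).union (E_closed.preimage continuous_fst)

theorem F_closedMap : IsClosedMap F :=
  isClosedMap_fst_of_compactSpace.comp X_closed.isClosedMap_subtype_val

theorem F_surj : Function.Surjective F := fun y => ⟨⟨(y, true), Or.inl rfl⟩, rfl⟩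

theorem F_fiber (y : Y) : IsCompact (F ⁻¹' {y}) := by
  have : (F ⁻¹' {y}).Finite := by
    refine Set.Finite.subset (s := (Subtype.val ⁻¹' {(y, true), (y, false)} : Set X)) ?_ ?_
    · exact Set.Finite.preimage (Subtype.val_injective.injOn) (Set.toFinite _)
    · rintro ⟨⟨y', b⟩, hb⟩ h
      have h' : y' = y := h
      subst h'
      cases b
      · right; rfl
      · left; rfl
  exact this.isCompact

/-- points of the copy of `D` with the limit point `none` -/
noncomputable def pnt (x : Option D) : X :=
  ⟨(⟨(ev x, 0), Or.inl ⟨rfl, x, rfl⟩⟩, false), Or.inr rfl⟩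

/-- the functions -/
noncomputable def a (s : I) : X → ℝ := fun p => if p.1.2 = false ∧ p.1.1.1.1 s = true then 1 else 0

theorem a_cont (s : I) : Continuous (a s) := by
  have h1 : Continuous (fun p : X => (p.1.2, p.1.1.1.1 s)) := by fun_prop
  have h2 : Continuous (fun b : Bool × Bool => if b.1 = false ∧ b.2 = true then (1 : ℝ) else 0) :=
    continuous_of_discreteTopology
  exact h2.comp h1

theorem a_pnt_some (s : I) (r : D) : a s (pnt (some r)) = if r ∈ Set.range s then 1 else 0 := by
  simp [a, pnt, ev]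

theorem a_pnt_none (s : I) : a s (pnt none) = 0 := by
  simp [a, pnt, ev]

theorem a_true (s : I) (p : X) (hp : p.1.2 = true) : a s p = 0 := by
  simp [a, hp]

theorem cases_X (p : X) : p.1.2 = true ∨ p = pnt none ∨ ∃ r, p = pnt (some r) := by
  obtain ⟨⟨⟨⟨f, t⟩, hy⟩, b⟩, hp⟩ := p
  cases b
  · right
    have ht : t = 0 := by
      rcases hp with h | h
      · exact absurd h (by simp)
      · exact h
    subst ht
    have hf : f ∈ Set.range ev := by
      rcases hy with h | h
      · exact h.2
      · exfalso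
        obtain ⟨n, hn⟩ := h.1
        have : (0 : ℝ) < 1 / ((n : ℝ) + 1) := by positivity
        simp only at hn
        linarith
    obtain ⟨x, rfl⟩ := hf
    cases x with
    | none => left; rfl
    | some r => right; exact ⟨r, rfl⟩
  · left; rfl

/-- the relatively countably compact set -/
def A : Set (Cp X) := {f | f.1 = 0 ∨ ∃ s : I, f.1 = a s}

theorem A_cc : CountablyCompactIn A := by
  refine countablyCompactIn_of_seq fun w hw => ?_
  have hex : ∀ n, ∃ C : Set D, C.Countable ∧ (∀ r, (w n).1 (pnt (some r)) = if r ∈ C then 1 else 0)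
      ∧ (w n).1 (pnt none) = 0 ∧ ∀ p : X, p.1.2 = true → (w n).1 p = 0 := by
    intro n
    rcases hw n with h | ⟨s, h⟩
    · exact ⟨∅, Set.countable_empty, by simp [h]⟩
    · refine ⟨Set.range s, Set.countable_range s, ?_⟩
      rw [h]
      exact ⟨a_pnt_some s, a_pnt_none s, a_true s⟩
  choose C hC hCr hCn hCt using hex
  have hcomp : IsCompact (Set.univ.pi fun _ : X => ({0, 1} : Set ℝ)) :=
    isCompact_univ_pi fun x => (Set.toFinite _).isCompact
  obtain ⟨h, hh, hcl⟩ := hcomp.exists_mapClusterPt (f := (atTop : Filter ℕ))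
    (u := fun n => (w n).1) (by
      refine tendsto_principal.2 (Eventually.of_forall fun n => ?_)
      intro x _
      rcases cases_X x with hx | hx | ⟨r, hx⟩
      · simp [hCt n x hx]
      · simp [hx, hCn]
      · subst hx
        simp only [hCr]
        split_ifs <;> simp)
  have hzero : ∀ x, (∀ n, (w n).1 x = 0) → h x = 0 := by
    intro x hx
    refine cluster_eval (e := fun f : X → ℝ => f) continuous_id hcl ?_
    simp only [hx]
    exact tendsto_const_nhds
  have hsub : {r : D | h (pnt (some r)) = 1} ⊆ ⋃ n, C n := by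
    intro r hr
    by_contra hx'
    have : h (pnt (some r)) = 0 := by
      refine hzero _ fun n => ?_
      rw [hCr, if_neg]
      exact fun hn => hx' (Set.mem_iUnion.2 ⟨n, hn⟩)
    rw [Set.mem_ofPred_eq, this] at hr
    exact zero_ne_one hr
  have hcount : {r : D | h (pnt (some r)) = 1}.Countable := (Set.countable_iUnion hC).mono hsub
  have h01 : ∀ x, h x = 0 ∨ h x = 1 := by
    intro x
    simpa using hh x (Set.mem_univ x)
  have hcont : Continuous h := by
    by_cases hne : {r : D | h (pnt (some r)) = 1}.Nonempty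
    · obtain ⟨s, hs⟩ := hcount.exists_eq_range hne
      have : h = a s := by
        funext x
        rcases cases_X x with hx | hx | ⟨r, hx⟩
        · rw [a_true s x hx, hzero x fun n => hCt n x hx]
        · subst hx
          rw [a_pnt_none, hzero _ fun n => hCn n]
        · subst hx
          rw [a_pnt_some]
          split_ifs with hr
          · rw [← hs] at hr
            exact hr
          · rw [← hs] at hr
            exact (h01 _).resolve_right hr
      rw [this]
      exact a_cont s
    · have : h = fun _ => 0 := by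
        funext x
        rcases cases_X x with hx | hx | ⟨r, hx⟩
        · exact hzero x fun n => hCt n x hx
        · subst hx
          exact hzero _ fun n => hCn n
        · subst hx
          exact (h01 _).resolve_right fun hr => hne ⟨r, hr⟩
      rw [this]
      exact continuous_const
  refine ⟨⟨h, hcont⟩, ?_⟩
  rw [mapClusterPt_iff_frequently] at hcl ⊢
  intro s hs
  obtain ⟨t, ht, hts⟩ := mem_nhds_subtype _ _ _ |>.1 hs
  exact (hcl t ht).mono fun n hn => hts hn

/-- the limit function -/
noncomputable def g : X → ℝ := fun p => if p.1.2 = false ∧ p ≠ pnt none then 1 else 0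

theorem g_some (r : D) : g (pnt (some r)) = 1 := by
  have h1 : pnt (some r) ≠ pnt none := by
    intro h
    have := congrArg (fun p : X => p.1.1.1.1 (fun _ => r)) h
    simp [pnt, ev] at this
  simp only [g]
  rw [if_pos ⟨rfl, h1⟩]

theorem g_none : g (pnt none) = 0 := by
  simp [g]

theorem tendsto_pnt : Tendsto (fun r : D => pnt (some r)) cocountable (𝓝 (pnt none)) := by
  rw [tendsto_subtype_rng]
  refine Tendsto.prodMk_nhds ?_ tendsto_const_nhds
  rw [tendsto_subtype_rng]
  refine Tendsto.prodMk_nhds ?_ tendsto_const_nhds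
  rw [tendsto_pi_nhds]
  intro s
  refine tendsto_const_nhds.congr' ?_
  have : (Set.range s)ᶜ ∈ (cocountable : Filter D) := by
    rw [Filter.mem_cocountable, compl_compl]
    exact Set.countable_range s
  filter_upwards [this] with r hr
  have h1 : ev none s = false := by simp [ev]
  have h2 : ev (some r) s = false := by
    simp only [ev, decide_eq_false_iff_not, Option.some.injEq]
    exact hr
  exact h1.trans h2.symm

theorem g_not_cont : ¬ Continuous g := by
  intro h
  have h1 : Tendsto (fun r : D => g (pnt (some r))) cocountable (𝓝 (g (pnt none))) :=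
    (h.tendsto _).comp tendsto_pnt
  simp only [g_some, g_none] at h1
  have h2 : Cardinal.mk D = Cardinal.continuum := by simp [D]
  have hunc : ¬ (Set.univ : Set D).Countable := by
    rw [Set.countable_univ_iff]
    intro h
    have := Cardinal.mk_le_aleph0_iff.2 h
    rw [h2] at this
    exact absurd this (not_le.2 Cardinal.aleph0_lt_continuum)
  have hNB : (cocountable : Filter D).NeBot := by
    refine ⟨fun hbot => hunc ?_⟩
    have := Filter.empty_mem_iff_bot.2 hbot
    rwa [Filter.mem_cocountable, Set.compl_empty] at this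
  exact one_ne_zero (tendsto_nhds_unique tendsto_const_nhds h1)

theorem A_not : ¬ IsCompact (closure A) := by
  intro h
  have h1 : IsCompact (Subtype.val '' closure A : Set (X → ℝ)) := h.image continuous_subtype_val
  have h2 : g ∈ closure (Subtype.val '' closure A : Set (X → ℝ)) := by
    rw [mem_closure_iff_nhds]
    intro V hV
    rw [nhds_pi, Filter.mem_pi] at hV
    obtain ⟨T, hT, t, ht, hsub⟩ := hV
    have hfin : {r : D | pnt (some r) ∈ T}.Finite := by
      refine hT.preimage (f := fun r : D => pnt (some r)) ?_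
      intro r _ r' _ hrr
      have := congrArg (fun p : X => p.1.1.1.1 (fun _ => r)) hrr
      simpa [pnt, ev] using this
    have hex : ∃ f : Cp X, f ∈ A ∧ ∀ x ∈ T, f.1 x = g x := by
      by_cases hne : {r : D | pnt (some r) ∈ T}.Nonempty
      · obtain ⟨s, hs⟩ := hfin.countable.exists_eq_range hne
        refine ⟨⟨a s, a_cont s⟩, Or.inr ⟨s, rfl⟩, ?_⟩
        intro x hx
        rcases cases_X x with h | h | ⟨r, h⟩
        · show a s x = g x
          rw [a_true s x h]
          simp [g, h]
        · subst h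
          exact (a_pnt_none s).trans g_none.symm
        · subst h
          show a s (pnt (some r)) = _
          rw [a_pnt_some, g_some, if_pos]
          rw [← hs]
          exact hx
      · refine ⟨⟨0, continuous_const⟩, Or.inl rfl, ?_⟩
        intro x hx
        rcases cases_X x with h | h | ⟨r, h⟩
        · simp [g, h]
        · subst h
          exact g_none.symm
        · subst h
          exact absurd ⟨r, hx⟩ hne
    obtain ⟨f, hfA, hf⟩ := hex
    refine ⟨f.1, hsub ?_, ⟨f, subset_closure hfA, rfl⟩⟩
    intro x hx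
    rw [hf x hx]
    exact mem_of_mem_nhds (ht x)
  rw [h1.isClosed.closure_eq] at h2
  obtain ⟨f, -, hf⟩ := h2
  exact g_not_cont (hf ▸ f.2)

theorem result : ∃ (X Y : Type) (_ : TopologicalSpace X) (_ : TopologicalSpace Y)
    (_ : T35Space X) (_ : T35Space Y) (f : X → Y),
    Continuous f ∧ IsClosedMap f ∧ Function.Surjective f ∧ (∀ y, IsCompact (f ⁻¹' {y})) ∧
    Grothendieck Y ∧ WeaklyGrothendieck Y ∧ ¬ WeaklyGrothendieck X ∧ ¬ Grothendieck X :=
  have h : ¬ WeaklyGrothendieck X := fun h => A_not (h A A_cc)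
  ⟨X, Y, inferInstance, inferInstance, inferInstance, inferInstance, F, F_cont, F_closedMap,
    F_surj, F_fiber, grothendieck_of_separable Y,
    weakly_of_grothendieck (grothendieck_of_separable Y), h,
    fun h' => h (weakly_of_grothendieck h')⟩

end Pool.Agent.Results.MP_590c78_gt.PerfectPreimage
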